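import Pool.Agent.HUK.StmtsA
import Pool.Agent.Helper70_HUK.SPC

/-!
# Row SCA of tank HUK: calculus for the segments of algebraic numbers
-/

set_option autoImplicit false

namespace Pool.Agent.HUK.H13

open Polynomial

theorem sca : ScaStmt := by
  intro E _ _ δ
  refine ⟨?_, ?_, ?_, ?_, ?_, ?_⟩
  · intro S T hST hT m A
    obtain ⟨C, hC⟩ := hT m A
    refine ⟨C, fun X hX x hx => le_trans ?_ (hC X hX x hx)⟩
    exact_mod_cast Pool.Agent.HUK.H70.card_mono (fun κ hκ => hST hκ)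
  · intro ι _ S h m A
    have _ : Fintype ι := Fintype.ofFinite ι
    choose C hC using fun i => h i m A
    refine ⟨∑ i, C i, fun X hX x hx => ?_⟩
    have h1 := Pool.Agent.HUK.H70.card_union (fun (i : ι) (κ : ℕ) => x + (κ : E) ∈ S i) X
    have h2 : (Nat.card {κ : ℕ // κ < X ∧ x + (κ : E) ∈ ⋃ i, S i} : ℝ) ≤
        ∑ i, (Nat.card {κ : ℕ // κ < X ∧ x + (κ : E) ∈ S i} : ℝ) := by
      have h3 : Nat.card {κ : ℕ // κ < X ∧ x + (κ : E) ∈ ⋃ i, S i} ≤
          ∑ i, Nat.card {κ : ℕ // κ < X ∧ x + (κ : E) ∈ S i} := by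
        refine le_trans (Pool.Agent.HUK.H70.card_mono fun κ hκ => ?_) h1
        exact Set.mem_iUnion.1 hκ
      exact_mod_cast h3
    rw [Finset.sum_mul]
    exact h2.trans (Finset.sum_le_sum fun i _ => hC i X hX x hx)
  · intro δ' hδ S h m A
    obtain ⟨C, hC⟩ := h m A
    refine ⟨|C|, fun X hX x hx => (hC X hX x hx).trans ?_⟩
    have hX1 : (1 : ℝ) ≤ X := by exact_mod_cast hX
    calc C * (X : ℝ) ^ (1 - δ) ≤ |C| * (X : ℝ) ^ (1 - δ) :=
          mul_le_mul_of_nonneg_right (le_abs_self C) (Real.rpow_nonneg (by linarith) _)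
      _ ≤ |C| * (X : ℝ) ^ (1 - δ') := by
          refine mul_le_mul_of_nonneg_left ?_ (abs_nonneg C)
          exact Real.rpow_le_rpow_of_exponent_le hX1 (by linarith)
  · intro hδ S h m A
    obtain ⟨C, hC⟩ := h m A
    refine ⟨⌈C⌉₊, δ, hδ, fun X hX x hx => (hC X hX x hx).trans ?_⟩
    refine mul_le_mul_of_nonneg_right (Nat.le_ceil C) (Real.rpow_nonneg (by positivity) _)
  · intro m A
    refine ⟨0, fun X hX x hx => ?_⟩
    have h1 : IsEmpty {κ : ℕ // κ < X ∧ x + (κ : E) ∈ (∅ : Set E)} := ⟨fun z => z.2.2⟩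
    rw [Nat.card_of_isEmpty, Nat.cast_zero, zero_mul]

  · intro S h m A
    obtain ⟨C, δ, hδ, hC⟩ := h m A
    refine ⟨C, δ, hδ, fun X hX x hx => hC X hX x ?_⟩
    obtain ⟨p, hp1, hp2, hp3, hp4⟩ := hx
    exact ⟨p, hp1.ne_zero, hp2, hp3, hp4⟩

end Pool.Agent.HUK.H13
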