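import Pool.Agent.HUK.Stmts
import Pool.Agent.HIK.All
import Pool.Agent.Helper44_HIK.SNG

/-!
# Row SNU of tank HUK: the singular residues, uniformly
-/

set_option autoImplicit false

namespace Pool.Agent.HUK.H13

open Polynomial NumberField Pool.Agent.HIK Pool.Agent.HUK

theorem absNorm_le {K : Type} [Field K] [NumberField K] (m H : ℕ) (hm : Module.finrank ℚ K ≤ m)
    (a : 𝓞 K) (ha : a ≠ 0) (hH : house (a : K) ≤ H) :
    Ideal.absNorm (Ideal.span {a}) ≤ H ^ m := by
  have h1 : 1 ≤ house (a : K) :=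
    one_le_house_of_isIntegral a.isIntegral_coe (by exact_mod_cast ha)
  have hn : Module.finrank ℚ K ≠ 0 := (Module.finrank_pos).ne'
  obtain ⟨σ⟩ : Nonempty (K →+* ℂ) := inferInstance
  have h2 := norm_norm_le_norm_mul_house_pow (a : K) σ
  have h3 : ‖Algebra.norm ℚ (a : K)‖ ≤ house (a : K) ^ Module.finrank ℚ K := by
    refine h2.trans ?_
    have h4 : house (a : K) ^ Module.finrank ℚ K =
        house (a : K) * house (a : K) ^ (Module.finrank ℚ K - 1) :=
      (mul_pow_sub_one hn _).symm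
    rw [h4]
    exact mul_le_mul_of_nonneg_right (norm_embedding_le_house _ σ)
      (pow_nonneg (house_nonneg _) _)
  have h5 : house (a : K) ^ Module.finrank ℚ K ≤ (H : ℝ) ^ m :=
    (pow_le_pow_right₀ h1 hm).trans (pow_le_pow_left₀ (house_nonneg _) hH m)
  have h6 : ((Ideal.absNorm (Ideal.span {a}) : ℕ) : ℝ) = ‖Algebra.norm ℚ (a : K)‖ := by
    rw [Ideal.absNorm_span_singleton, ← Algebra.coe_norm_int, Nat.cast_natAbs]
    rw [← Rat.norm_cast_real, Real.norm_eq_abs]
    push_cast
    rfl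
  have h7 : ((Ideal.absNorm (Ideal.span {a}) : ℕ) : ℝ) ≤ ((H ^ m : ℕ) : ℝ) := by
    rw [h6]
    push_cast
    exact h3.trans h5
  exact_mod_cast h7

theorem snu : SnuStmt := by
  intro m H
  refine ⟨H ^ m + 1, ?_⟩
  intro K _ _ hm r hr hrH
  have hl : r.leadingCoeff ≠ 0 := leadingCoeff_ne_zero.mpr hr
  obtain ⟨k, hk⟩ : ∃ k, k = Ideal.absNorm (Ideal.span {r.leadingCoeff}) := ⟨_, rfl⟩
  have hk0 : k ≠ 0 := by
    rw [hk, Ne, Ideal.absNorm_eq_zero_iff, Ideal.span_singleton_eq_bot]
    exact hl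
  have hkm : (k : 𝓞 K) ∈ Ideal.span {r.leadingCoeff} := by
    rw [hk]
    exact Ideal.absNorm_mem _
  have hkH : k ≤ H ^ m := by
    rw [hk]
    exact absNorm_le m H hm _ hl (hrH _)
  intro p hp hpk' a0 S hS1 hS2
  have hpk : k + 1 ≤ p := by omega
  obtain ⟨hfin, hcard, hun⟩ := prmA K p hp
  classical
  have hsub : S ⊆ hfin.toFinset.biUnion fun P => S.filter fun n : ℕ => r.eval (a0 + (n : 𝓞 K)) ∈ P := by
    intro n hn
    have h1 := hS2 n hn
    have h2 : ∃ P ∈ Ab K p, r.eval (a0 + n) ∈ P := by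
      by_contra hcon
      push Not at hcon
      exact h1 (hun _ hcon)
    obtain ⟨P, hP, hPn⟩ := h2
    rw [Finset.mem_biUnion]
    exact ⟨P, hfin.mem_toFinset.mpr hP, Finset.mem_filter.mpr ⟨hn, hPn⟩⟩
  have hone : ∀ P ∈ hfin.toFinset, (S.filter fun n : ℕ => r.eval (a0 + (n : 𝓞 K)) ∈ P).card ≤
      r.natDegree := by
    intro P hP
    rw [hfin.mem_toFinset] at hP
    obtain ⟨hmax, hpP⟩ := hP
    have hne := hmax.ne_top
    let _ : Field (𝓞 K ⧸ P) := Ideal.Quotient.field P
    have hl2 : Ideal.Quotient.mk P r.leadingCoeff ≠ 0 := by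
      intro h0
      rw [Ideal.Quotient.eq_zero_iff_mem] at h0
      have h1 : Ideal.span {r.leadingCoeff} ≤ P := by
        rw [Ideal.span_singleton_le_iff_mem]
        exact h0
      exact Pool.Agent.HIK.H44.not_mem hne hp hpP (Nat.pos_of_ne_zero hk0) (by omega) (h1 hkm)
    have hr2 : r.map (Ideal.Quotient.mk P) ≠ 0 := by
      intro h0
      apply hl2
      have := congrArg (fun f => f.coeff r.natDegree) h0
      rw [coeff_map, coeff_zero] at this
      exact this
    have hinj : Set.InjOn (fun n : ℕ => Ideal.Quotient.mk P (a0 + (n : 𝓞 K)))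
        (S.filter fun n : ℕ => r.eval (a0 + (n : 𝓞 K)) ∈ P : Finset ℕ) := by
      intro n hn n' hn' heq
      rw [Finset.mem_coe, Finset.mem_filter] at hn hn'
      have hnp := hS1 n hn.1
      have hnp' := hS1 n' hn'.1
      have h1 : (n : 𝓞 K) - n' ∈ P := by
        have := Ideal.Quotient.eq.mp heq
        rwa [add_sub_add_left_eq_sub] at this
      by_contra hneq
      rcases Nat.lt_or_gt_of_ne hneq with h | h
      · have h2 : ((n' - n : ℕ) : 𝓞 K) ∈ P := by
          rw [Nat.cast_sub h.le, ← neg_sub]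
          exact P.neg_mem h1
        exact Pool.Agent.HIK.H44.not_mem hne hp hpP (by omega) (by omega) h2
      · have h2 : ((n - n' : ℕ) : 𝓞 K) ∈ P := by
          rw [Nat.cast_sub h.le]
          exact h1
        exact Pool.Agent.HIK.H44.not_mem hne hp hpP (by omega) (by omega) h2
    rw [← Finset.card_image_of_injOn hinj]
    have hsub2 : (S.filter fun n : ℕ => r.eval (a0 + (n : 𝓞 K)) ∈ P).image
        (fun n : ℕ => Ideal.Quotient.mk P (a0 + (n : 𝓞 K))) ⊆
        (r.map (Ideal.Quotient.mk P)).roots.toFinset := by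
      intro z hz
      rw [Finset.mem_image] at hz
      obtain ⟨n, hn, rfl⟩ := hz
      rw [Finset.mem_filter] at hn
      rw [Multiset.mem_toFinset, mem_roots hr2, IsRoot, eval_map, eval₂_hom,
        Ideal.Quotient.eq_zero_iff_mem]
      exact hn.2
    calc _ ≤ (r.map (Ideal.Quotient.mk P)).roots.toFinset.card := Finset.card_le_card hsub2
      _ ≤ Multiset.card (r.map (Ideal.Quotient.mk P)).roots := Multiset.toFinset_card_le _
      _ ≤ (r.map (Ideal.Quotient.mk P)).natDegree := card_roots' _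
      _ ≤ r.natDegree := natDegree_map_le
  calc S.card ≤ (hfin.toFinset.biUnion fun P => S.filter fun n : ℕ => r.eval (a0 + (n : 𝓞 K)) ∈ P).card :=
      Finset.card_le_card hsub
    _ ≤ ∑ P ∈ hfin.toFinset, (S.filter fun n : ℕ => r.eval (a0 + (n : 𝓞 K)) ∈ P).card :=
      Finset.card_biUnion_le
    _ ≤ ∑ P ∈ hfin.toFinset, r.natDegree := Finset.sum_le_sum hone
    _ = hfin.toFinset.card * r.natDegree := by rw [Finset.sum_const, smul_eq_mul]
    _ ≤ Module.finrank ℚ K * r.natDegree := by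
      apply Nat.mul_le_mul_right
      rw [← Set.ncard_eq_toFinset_card _ hfin]
      exact hcard

end Pool.Agent.HUK.H13
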